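import Pool.Agent.J4H26.KP.Noat

set_option autoImplicit false

/-! Project KP (N3): Littlewood and Offord by the LYM inequality. -/

namespace Pool.Agent.J4H21.KP

open Finset Filter Real

/-- an antichain of subsets of `B` -/
theorem anti {ι : Type} [DecidableEq ι] (B : Finset ι) (𝒜 : Finset (Finset ι)) (hB : ∀ S ∈ 𝒜, S ⊆ B)
    (ha : IsAntichain (· ⊆ ·) (𝒜 : Set (Finset ι))) {δ η : ℝ} (h0 : 0 ≤ η)
    (hm : ∀ k : ℕ, k ≤ #B → ((#B).choose k : ℝ) * (δ ^ k * (1 - δ) ^ (#B - k)) ≤ η) :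
    ∑ S ∈ 𝒜, δ ^ #S * (1 - δ) ^ (#B - #S) ≤ η := by
  classical
  -- transport to the subtype
  let f : Finset ι → Finset B := fun S => S.subtype (· ∈ B)
  have hf : ∀ S ∈ 𝒜, (f S).map (Function.Embedding.subtype _) = S := by
    intro S hS
    rw [Finset.subtype_map]
    exact Finset.filter_true_of_mem (fun x hx => hB S hS hx)
  have hinj : Set.InjOn f (𝒜 : Set (Finset ι)) := by
    intro S hS T hT h
    rw [← hf S hS, ← hf T hT, h]
  have hcard : ∀ S ∈ 𝒜, #(f S) = #S := by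
    intro S hS
    conv_rhs => rw [← hf S hS]
    rw [Finset.card_map]
  have ha' : IsAntichain (· ⊆ ·) (SetLike.coe (𝒜.image f)) := by
    intro S hS T hT hne hST
    rw [SetLike.mem_coe, Finset.mem_image] at hS hT
    obtain ⟨S', hS', rfl⟩ := hS
    obtain ⟨T', hT', rfl⟩ := hT
    have hne' : S' ≠ T' := fun h => hne (by rw [h])
    refine ha hS' hT' hne' ?_
    have : (f S').map (Function.Embedding.subtype _) ⊆ (f T').map (Function.Embedding.subtype _) :=
      Finset.map_subset_map.2 hST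
    rwa [hf _ hS', hf _ hT'] at this
  have hl := lubell_yamamoto_meshalkin_inequality_sum_inv_choose (𝕜 := ℝ) ha'
  rw [Finset.sum_image hinj, Fintype.card_coe] at hl
  calc ∑ S ∈ 𝒜, δ ^ #S * (1 - δ) ^ (#B - #S)
      ≤ ∑ S ∈ 𝒜, η * (((#B).choose #(f S) : ℝ))⁻¹ := by
        refine Finset.sum_le_sum fun S hS => ?_
        have hk : #S ≤ #B := Finset.card_le_card (hB S hS)
        have hc : (0 : ℝ) < ((#B).choose #S : ℝ) := by exact_mod_cast Nat.choose_pos hk
        rw [hcard S hS, ← div_eq_mul_inv, le_div_iff₀ hc]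
        have := hm _ hk
        linarith
    _ = η * ∑ S ∈ 𝒜, (((#B).choose #(f S) : ℝ))⁻¹ := by rw [Finset.mul_sum]
    _ ≤ η * 1 := mul_le_mul_of_nonneg_left hl h0
    _ = η := mul_one _

/-- (N3) -/
theorem t_LO : Pool.Agent.J4H26.KP.S_MODE → Pool.Agent.J4H26.KP.S_LO := by
  classical
  intro hM δ₀ η h0 hη
  obtain ⟨J, hJ⟩ := hM δ₀ η h0 hη
  refine ⟨J, fun ι C wt a ha hwt hC δ hδ0 hδ1 x => ?_⟩
  set B := C.filter fun i => a < wt i with hBdef
  set A := C.filter fun i => ¬ a < wt i with hAdef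
  have hdis : Disjoint A B := by
    rw [Finset.disjoint_left]
    intro i hi hi'
    rw [hAdef, Finset.mem_filter] at hi
    rw [hBdef, Finset.mem_filter] at hi'
    exact hi.2 hi'.2
  have hun : A ∪ B = C := by
    ext i
    simp only [hAdef, hBdef, Finset.mem_union, Finset.mem_filter]
    tauto
  have hcC : #C = #A + #B := by rw [← hun, Finset.card_union_of_disjoint hdis]
  have hBC : B ⊆ C := Finset.filter_subset _ _
  have hAC : A ⊆ C := Finset.filter_subset _ _
  -- split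
  have hsplit : (∑ S ∈ C.powerset, δ ^ #S * (1 - δ) ^ (#C - #S) *
      (if x ≤ ∑ i ∈ S, wt i ∧ ∑ i ∈ S, wt i ≤ x + a then (1 : ℝ) else 0)) =
      ∑ P ∈ A.powerset ×ˢ B.powerset, δ ^ #P.1 * (1 - δ) ^ (#A - #P.1) * (δ ^ #P.2 * (1 - δ) ^ (#B - #P.2) *
      (if x ≤ ∑ i ∈ P.1, wt i + ∑ i ∈ P.2, wt i ∧ ∑ i ∈ P.1, wt i + ∑ i ∈ P.2, wt i ≤ x + a then (1 : ℝ) else 0)) := by
    symm
    refine Finset.sum_bij' (fun P _ => P.1 ∪ P.2) (fun S _ => (S ∩ A, S ∩ B)) ?_ ?_ ?_ ?_ ?_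
    · intro P hP
      rw [Finset.mem_product, Finset.mem_powerset, Finset.mem_powerset] at hP
      rw [Finset.mem_powerset]
      exact Finset.union_subset (hP.1.trans hAC) (hP.2.trans hBC)
    · intro S hS
      rw [Finset.mem_product, Finset.mem_powerset, Finset.mem_powerset]
      exact ⟨Finset.inter_subset_right, Finset.inter_subset_right⟩
    · intro P hP
      rw [Finset.mem_product, Finset.mem_powerset, Finset.mem_powerset] at hP
      have h1 : Disjoint P.2 A := (hdis.mono_right hP.2).symm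
      have h2 : Disjoint P.1 B := hdis.mono_left hP.1
      refine Prod.ext ?_ ?_
      · show (P.1 ∪ P.2) ∩ A = P.1
        rw [Finset.union_inter_distrib_right, Finset.inter_eq_left.2 hP.1,
          Finset.disjoint_iff_inter_eq_empty.1 h1, Finset.union_empty]
      · show (P.1 ∪ P.2) ∩ B = P.2
        rw [Finset.union_inter_distrib_right, Finset.inter_eq_left.2 hP.2,
          Finset.disjoint_iff_inter_eq_empty.1 h2, Finset.empty_union]
    · intro S hS
      rw [Finset.mem_powerset] at hS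
      show S ∩ A ∪ S ∩ B = S
      rw [← Finset.inter_union_distrib_left, hun, Finset.inter_eq_left.2 hS]
    · intro P hP
      rw [Finset.mem_product, Finset.mem_powerset, Finset.mem_powerset] at hP
      have h3 : Disjoint P.1 P.2 := (hdis.mono_left hP.1).mono_right hP.2
      have c1 := Finset.card_le_card hP.1
      have c2 := Finset.card_le_card hP.2
      rw [Finset.card_union_of_disjoint h3, Finset.sum_union h3, hcC,
        show #A + #B - (#P.1 + #P.2) = (#A - #P.1) + (#B - #P.2) by omega, pow_add, pow_add]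
      ring
  rw [hsplit, Finset.sum_product]
  have hin : ∀ S₁ ∈ A.powerset, ∑ S₂ ∈ B.powerset, δ ^ #S₁ * (1 - δ) ^ (#A - #S₁) * (δ ^ #S₂ * (1 - δ) ^ (#B - #S₂) *
      (if x ≤ ∑ i ∈ S₁, wt i + ∑ i ∈ S₂, wt i ∧ ∑ i ∈ S₁, wt i + ∑ i ∈ S₂, wt i ≤ x + a then (1 : ℝ) else 0)) ≤
      δ ^ #S₁ * (1 - δ) ^ (#A - #S₁) * η := by
    intro S₁ _
    rw [← Finset.mul_sum]
    refine mul_le_mul_of_nonneg_left ?_ (mul_nonneg (pow_nonneg (by linarith) _) (pow_nonneg (by linarith) _))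
    have e1 : ∑ S₂ ∈ B.powerset, (δ ^ #S₂ * (1 - δ) ^ (#B - #S₂) *
        (if x ≤ ∑ i ∈ S₁, wt i + ∑ i ∈ S₂, wt i ∧ ∑ i ∈ S₁, wt i + ∑ i ∈ S₂, wt i ≤ x + a then (1 : ℝ) else 0)) =
        ∑ S₂ ∈ B.powerset.filter (fun S₂ => x ≤ ∑ i ∈ S₁, wt i + ∑ i ∈ S₂, wt i ∧
          ∑ i ∈ S₁, wt i + ∑ i ∈ S₂, wt i ≤ x + a), δ ^ #S₂ * (1 - δ) ^ (#B - #S₂) := by
      rw [Finset.sum_filter]
      refine Finset.sum_congr rfl fun S _ => ?_
      split_ifs <;> ring
    rw [e1]
    refine anti B _ ?_ ?_ hη.le (fun k hk => hJ _ hC δ hδ0 hδ1 k hk)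
    · intro S hS
      exact Finset.mem_powerset.1 (Finset.mem_filter.1 hS).1
    · intro S hS T hT hne hST
      rw [Finset.mem_coe, Finset.mem_filter, Finset.mem_powerset] at hS hT
      obtain ⟨j, hjT, hjS⟩ := Finset.exists_of_ssubset (Finset.ssubset_iff_subset_ne.2 ⟨hST, hne⟩)
      have hj : a < wt j := (Finset.mem_filter.1 (hT.1 hjT)).2
      have h5 : ∑ i ∈ insert j S, wt i ≤ ∑ i ∈ T, wt i := by
        refine Finset.sum_le_sum_of_subset_of_nonneg (Finset.insert_subset hjT hST) fun i hi _ => ?_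
        exact hwt i (hBC (hT.1 hi))
      rw [Finset.sum_insert hjS] at h5
      linarith [hS.2.1, hT.2.2]
  refine (Finset.sum_le_sum hin).trans ?_
  rw [← Finset.sum_mul, Finset.sum_pow_mul_eq_add_pow]
  simp

end Pool.Agent.J4H21.KP
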