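import Pool.Agent.J4H26.KP.Noat

set_option autoImplicit false

/-! Project KP (N2): the binomial probabilities are small (Stirling). -/

namespace Pool.Agent.J4H21.KP

open Finset Filter Real

/-- upper bound of Stirling type -/
theorem fact_le {n : ℕ} (hn : 1 ≤ n) : (n.factorial : ℝ) ≤ exp 1 * √n * (n / exp 1) ^ n := by
  obtain ⟨m, rfl⟩ : ∃ m, n = m + 1 := ⟨n - 1, by omega⟩
  have h := Stirling.stirlingSeq'_antitone (Nat.zero_le m)
  simp only [Function.comp, Nat.succ_eq_add_one, zero_add] at h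
  rw [Stirling.stirlingSeq_one, Stirling.stirlingSeq] at h
  have h2 : 0 < √(2 * ((m + 1 : ℕ) : ℝ)) * (((m + 1 : ℕ) : ℝ) / exp 1) ^ (m + 1) := by positivity
  rw [div_le_iff₀ h2] at h
  refine h.trans (le_of_eq ?_)
  rw [Real.sqrt_mul (by norm_num)]
  have h3 : √(2 : ℝ) ≠ 0 := by positivity
  field_simp

/-- the middle -/
theorem mid {n k : ℕ} {δ : ℝ} (h0 : 0 ≤ δ) (h1 : δ ≤ 1) (hk : 1 ≤ k) (hkn : k + 1 ≤ n) :
    (n.choose k : ℝ) * (δ ^ k * (1 - δ) ^ (n - k)) ≤ √(1 / k + 1 / ((n - k : ℕ) : ℝ)) := by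
  set m := n - k with hm
  have hnm : n = k + m := by omega
  have hm1 : 1 ≤ m := by omega
  have hkR : (0 : ℝ) < k := by exact_mod_cast hk
  have hmR : (0 : ℝ) < m := by exact_mod_cast hm1
  have hnR : (n : ℝ) = k + m := by rw [hnm]; push_cast; ring
  have hn0 : (0 : ℝ) < n := by rw [hnR]; positivity
  -- the entropy inequality
  have e1 : (δ * n / k) ^ k ≤ exp (δ * n - k) := by
    have : δ * n / k ≤ exp (δ * n / k - 1) := by
      have := Real.add_one_le_exp (δ * n / k - 1); linarith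
    calc (δ * n / k) ^ k ≤ (exp (δ * n / k - 1)) ^ k := pow_le_pow_left₀ (by positivity) this k
      _ = exp (δ * n - k) := by
        rw [← Real.exp_nat_mul]; congr 1; field_simp
  have e2 : ((1 - δ) * n / m) ^ m ≤ exp ((1 - δ) * n - m) := by
    have : (1 - δ) * n / m ≤ exp ((1 - δ) * n / m - 1) := by
      have := Real.add_one_le_exp ((1 - δ) * n / m - 1); linarith
    have h1' : 0 ≤ 1 - δ := by linarith
    calc ((1 - δ) * n / m) ^ m ≤ (exp ((1 - δ) * n / m - 1)) ^ m := pow_le_pow_left₀ (by positivity) this m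
      _ = exp ((1 - δ) * n - m) := by
        rw [← Real.exp_nat_mul]; congr 1; field_simp
  have e3 : (δ * n / k) ^ k * ((1 - δ) * n / m) ^ m ≤ 1 := by
    have h1' : 0 ≤ 1 - δ := by linarith
    calc (δ * n / k) ^ k * ((1 - δ) * n / m) ^ m ≤ exp (δ * n - k) * exp ((1 - δ) * n - m) :=
          mul_le_mul e1 e2 (by positivity) (by positivity)
      _ = 1 := by
          have h4 : δ * n - k + ((1 - δ) * n - m) = 0 := by rw [hnR]; ring
          rw [← Real.exp_add, h4, Real.exp_zero]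
  -- factorials
  have f1 := fact_le (n := n) (by omega)
  have f2 := Stirling.le_factorial_stirling k
  have f3 := Stirling.le_factorial_stirling m
  have hch : (n.choose k : ℝ) * (k.factorial * m.factorial) = n.factorial := by
    have := Nat.choose_mul_factorial_mul_factorial (show k ≤ n by omega)
    rw [← hm] at this
    rw [← mul_assoc]; exact_mod_cast this
  have hpos : 0 < √(2 * π * k) * (k / exp 1) ^ k * (√(2 * π * m) * (m / exp 1) ^ m) := by positivity
  have hfm : √(2 * π * k) * (k / exp 1) ^ k * (√(2 * π * m) * (m / exp 1) ^ m) ≤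
      (k.factorial * m.factorial : ℝ) := mul_le_mul f2 f3 (by positivity) (by positivity)
  have h1' : 0 ≤ 1 - δ := by linarith
  have key : (n.choose k : ℝ) * (δ ^ k * (1 - δ) ^ m) *
      (√(2 * π * k) * (k / exp 1) ^ k * (√(2 * π * m) * (m / exp 1) ^ m)) ≤
      √(1 / k + 1 / (m : ℝ)) * (√(2 * π * k) * (k / exp 1) ^ k * (√(2 * π * m) * (m / exp 1) ^ m)) := by
    calc (n.choose k : ℝ) * (δ ^ k * (1 - δ) ^ m) *
        (√(2 * π * k) * (k / exp 1) ^ k * (√(2 * π * m) * (m / exp 1) ^ m))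
        ≤ (n.choose k : ℝ) * (δ ^ k * (1 - δ) ^ m) * (k.factorial * m.factorial : ℝ) :=
          mul_le_mul_of_nonneg_left hfm (by positivity)
      _ = (δ ^ k * (1 - δ) ^ m) * n.factorial := by rw [← hch]; ring
      _ ≤ (δ ^ k * (1 - δ) ^ m) * (exp 1 * √n * (n / exp 1) ^ n) :=
          mul_le_mul_of_nonneg_left f1 (by positivity)
      _ = exp 1 * √n * ((k / exp 1) ^ k * (m / exp 1) ^ m) *
          ((δ * n / k) ^ k * ((1 - δ) * n / m) ^ m) := by
          have : ((n : ℝ) / exp 1) ^ n = (n / exp 1) ^ k * (n / exp 1) ^ m := by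
            rw [← pow_add]; congr 1
          rw [this]
          simp only [div_pow, mul_pow]
          have hk' : ((k : ℝ)) ^ k ≠ 0 := by positivity
          have hm' : ((m : ℝ)) ^ m ≠ 0 := by positivity
          field_simp
      _ ≤ exp 1 * √n * ((k / exp 1) ^ k * (m / exp 1) ^ m) * 1 :=
          mul_le_mul_of_nonneg_left e3 (by positivity)
      _ ≤ √(1 / k + 1 / (m : ℝ)) * (√(2 * π * k) * (k / exp 1) ^ k * (√(2 * π * m) * (m / exp 1) ^ m)) := by
          have hs : exp 1 * √n ≤ √(1 / k + 1 / (m : ℝ)) * (√(2 * π * k) * √(2 * π * m)) := by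
            rw [← Real.sqrt_mul (by positivity), ← Real.sqrt_mul (by positivity)]
            have he : (1 / k + 1 / (m : ℝ)) * (2 * π * k * (2 * π * m)) = (2 * π) ^ 2 * n := by
              rw [hnR]; field_simp; ring
            rw [he, Real.sqrt_mul (by positivity), Real.sqrt_sq (by positivity)]
            refine mul_le_mul_of_nonneg_right ?_ (by positivity)
            have := Real.exp_one_lt_d9
            have := Real.pi_gt_three
            linarith
          calc exp 1 * √n * ((k / exp 1) ^ k * (m / exp 1) ^ m) * 1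
              = exp 1 * √n * ((k / exp 1) ^ k * (m / exp 1) ^ m) := by ring
            _ ≤ √(1 / k + 1 / (m : ℝ)) * (√(2 * π * k) * √(2 * π * m)) * ((k / exp 1) ^ k * (m / exp 1) ^ m) :=
              mul_le_mul_of_nonneg_right hs (by positivity)
            _ = _ := by ring
  exact le_of_mul_le_mul_right key hpos

/-- the tail -/
theorem tail {δ₀ η : ℝ} (h0 : 0 < δ₀) (hη : 0 < η) (M : ℕ) : ∃ J : ℕ, ∀ n : ℕ, J ≤ n → ∀ δ : ℝ,
    δ₀ ≤ δ → δ ≤ 1 - δ₀ → ∀ k : ℕ, k ≤ M → k ≤ n → (n.choose k : ℝ) * (δ ^ k * (1 - δ) ^ (n - k)) ≤ η := by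
  by_cases h1 : δ₀ < 1
  · have ht := tendsto_pow_const_mul_const_pow_of_abs_lt_one M (r := 1 - δ₀) (by rw [abs_lt]; constructor <;> linarith)
    have ht2 := ht.mul_const (((1 - δ₀) ^ M)⁻¹)
    rw [zero_mul] at ht2
    obtain ⟨J, hJ⟩ := Filter.eventually_atTop.1 (ht2.eventually (gt_mem_nhds hη))
    refine ⟨max J (M + 1), fun n hn δ hδ0 hδ1 k hk hkn => ?_⟩
    have hnJ : J ≤ n := le_trans (le_max_left _ _) hn
    have hnM : M + 1 ≤ n := le_trans (le_max_right _ _) hn
    refine le_trans ?_ (hJ n hnJ).le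
    have hq : 0 < 1 - δ₀ := by linarith
    have c1 : (n.choose k : ℝ) ≤ (n : ℝ) ^ M := by
      calc (n.choose k : ℝ) ≤ (n : ℝ) ^ k := by exact_mod_cast Nat.choose_le_pow n k
        _ ≤ (n : ℝ) ^ M := pow_le_pow_right₀ (by exact_mod_cast (by omega : 1 ≤ n)) hk
    have c2 : δ ^ k * (1 - δ) ^ (n - k) ≤ (1 - δ₀) ^ n * ((1 - δ₀) ^ M)⁻¹ := by
      have a1 : δ ^ k ≤ 1 := pow_le_one₀ (by linarith) (by linarith)
      have a2 : (1 - δ) ^ (n - k) ≤ (1 - δ₀) ^ (n - k) := pow_le_pow_left₀ (by linarith) (by linarith) _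
      have a3 : (1 - δ₀) ^ (n - k) ≤ (1 - δ₀) ^ (n - M) :=
        pow_le_pow_of_le_one (by linarith) (by linarith) (by omega)
      have a4 : (1 - δ₀) ^ (n - M) = (1 - δ₀) ^ n * ((1 - δ₀) ^ M)⁻¹ := by
        rw [eq_mul_inv_iff_mul_eq₀ (by positivity), ← pow_add]; congr 1; omega
      have a5 : 0 ≤ (1 - δ) ^ (n - k) := pow_nonneg (by linarith) _
      calc δ ^ k * (1 - δ) ^ (n - k) ≤ 1 * (1 - δ) ^ (n - k) := mul_le_mul_of_nonneg_right a1 a5
        _ ≤ _ := by rw [one_mul, ← a4]; exact a2.trans a3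
    calc (n.choose k : ℝ) * (δ ^ k * (1 - δ) ^ (n - k)) ≤ (n : ℝ) ^ M * ((1 - δ₀) ^ n * ((1 - δ₀) ^ M)⁻¹) :=
          mul_le_mul c1 c2 (mul_nonneg (pow_nonneg (by linarith) _) (pow_nonneg (by linarith) _)) (by positivity)
      _ = _ := by ring
  · exact ⟨0, fun n _ δ h2 h3 => by linarith⟩

/-- (N2) -/
theorem t_MODE : Pool.Agent.J4H26.KP.S_MODE := by
  intro δ₀ η h0 hη
  obtain ⟨M, hM⟩ := exists_nat_gt (2 / η ^ 2)
  obtain ⟨J, hJ⟩ := tail h0 hη M
  refine ⟨J, fun n hn δ hδ0 hδ1 k hkn => ?_⟩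
  by_cases hk : k ≤ M
  · exact hJ n hn δ hδ0 hδ1 k hk hkn
  by_cases hk2 : n - k ≤ M
  · have := hJ n hn (1 - δ) (by linarith) (by linarith) (n - k) hk2 (by omega)
    rw [Nat.choose_symm hkn, show n - (n - k) = k by omega, sub_sub_cancel, mul_comm ((1 - δ) ^ _)] at this
    exact this
  · rw [not_le] at hk hk2
    refine (mid (by linarith) (by linarith) (by omega) (by omega)).trans ?_
    have hM0 : (0 : ℝ) < M := lt_of_le_of_lt (by positivity) hM
    have b1 : (1 : ℝ) / k ≤ 1 / M := one_div_le_one_div_of_le hM0 (by exact_mod_cast hk.le)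
    have b2 : (1 : ℝ) / ((n - k : ℕ) : ℝ) ≤ 1 / M := one_div_le_one_div_of_le hM0 (by exact_mod_cast hk2.le)
    rw [Real.sqrt_le_left (by linarith)]
    have b3 : 2 / (M : ℝ) ≤ η ^ 2 := by
      rw [div_le_iff₀ hM0]
      rw [div_lt_iff₀ (by positivity)] at hM
      linarith
    calc (1 : ℝ) / k + 1 / ((n - k : ℕ) : ℝ) ≤ 1 / M + 1 / M := add_le_add b1 b2
      _ = 2 / M := by ring
      _ ≤ η ^ 2 := b3

end Pool.Agent.J4H21.KP
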